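import Pool.Agent.H29.BH.Targets2

/-!
# Separation at all places
-/

set_option autoImplicit false

open NumberField NumberField.InfinitePlace NumberField.Units
  NumberField.Units.dirichletUnitTheorem MeasureTheory Set Filter Complex
open scoped nonZeroDivisors ENNReal Topology

namespace Pool.Agent.H54.BH

open Pool.Agent.H25.HK Pool.Agent.H23.LB Pool.Agent.H23.LC Pool.Agent.H29.DW
open Pool.Agent.H28.RC (Rep ft idl)
open Pool.Agent.H29.TC (dvs)
open Pool.Agent.H29.BH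

private theorem dg_rv' {K : Type} [Field K] (v : InfinitePlace K) : dg (rv v) = v.mult := by
  classical
  unfold dg rv InfinitePlace.mult
  by_cases h : v.IsReal
  · simp [h]
  · simp [h]

private theorem sm_mono {r : Bool} {B B' : ℝ} {g : ℂ → ℂ} (h : Sm r B g) (hB : B ≤ B') :
    Sm r B' g where
  bound := fun z hz => (h.bound z hz).trans hB
  supp := h.supp
  real := fun hr => ⟨(h.real hr).1, fun x => ((h.real hr).2 x).trans hB⟩
  cplx := fun hr => ⟨(h.cplx hr).1, fun z => ((h.cplx hr).2 z).trans hB⟩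

/-- the local statement with an arbitrary larger constant -/
private def DecB (r : Bool) (C : ℝ) : Prop :=
  ∀ (k : ℤ) (μ : ℂ) (η : ℝ), Qp r k μ → 0 < η → η * cc k μ ≤ 1 / 16 →
    ∃ (κ : Fin 4 → ℂ → ℂ) (A : Fin 4 → ℂ → ℂ → ℂ),
    (∀ j, Measurable (κ j)) ∧ (∀ j s, ‖κ j s‖ ≤ η ^ (-(dg r : ℝ))) ∧
    (∀ j s, κ j s ≠ 0 → ‖s‖ ≤ 2 * η) ∧
    (∀ j, Measurable (fun q : ℂ × ℂ => A j q.1 q.2)) ∧
    (∀ j b, Rl r b → ‖b‖ ≤ 1 / 8 → Sm r C (A j b)) ∧
    (∀ j b z, ‖A j b z‖ ≤ C ∧ (A j b z ≠ 0 → ‖b‖ ≤ 1 / 8 ∧ ‖z‖ ≤ 3)) ∧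
    ∀ b p : ℂ, Rl r b → Rl r p → ‖b‖ ≤ 1 / 8 → 1 ≤ ‖p‖ → ‖p‖ ≤ 2 →
      Gm k μ (1 + b / p) = ∑ j : Fin 4, ∫ s, κ j s *
        (A j b (p + s) * Gm k μ (1 + b / (p + s))) ∂mz r

private theorem decB {r : Bool} (h : Dec r) : ∃ C : ℝ, 1 ≤ C ∧ ∀ C', C ≤ C' → DecB r C' := by
  obtain ⟨C, hC, h⟩ := h
  refine ⟨C, hC, fun C' hCC k μ η hq hη hc => ?_⟩
  obtain ⟨κ, A, a1, a2, a3, a4, a5, a6, a7⟩ := h k μ η hq hη hc
  exact ⟨κ, A, a1, a2, a3, a4, fun j b hb hb' => sm_mono (a5 j b hb hb') hCC,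
    fun j b z => ⟨(a6 j b z).1.trans hCC, (a6 j b z).2⟩, a7⟩

theorem pf_N_DK (hDR : A_DR) (hDC : A_DC) : N_DK := by
  classical
  obtain ⟨C1, hC1, h1⟩ := decB hDR
  obtain ⟨C2, hC2, h2⟩ := decB hDC
  intro n hn
  refine ⟨max C1 C2, le_max_of_le_left hC1, ?_⟩
  intro K _ _ hK k μ η hQ hη hηc
  have hall : ∀ r : Bool, DecB r (max C1 C2) := by
    intro r
    cases r
    · exact h2 _ (le_max_right _ _)
    · exact h1 _ (le_max_left _ _)
  have hloc := fun v : InfinitePlace K => hall (rv v) (k v) (μ v) (η v) (hQ.loc v) (hη v) (hηc v)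
  choose κ A a1 a2 a3 a4 a5 a6 a7 using hloc
  refine ⟨fun j s => ∏ v, κ v (j v) (s v), fun j v => A v (j v), ?_, ?_, ?_, ?_, ?_⟩
  · intro j
    exact Finset.measurable_prod _ fun v _ => (a1 v (j v)).comp (measurable_pi_apply v)
  · intro j s
    rw [norm_prod, ← Finset.prod_inv_distrib]
    refine Finset.prod_le_prod (fun v _ => norm_nonneg _) fun v _ => ?_
    refine (a2 v (j v) (s v)).trans (le_of_eq ?_)
    rw [dg_rv', Real.rpow_neg (hη v).le, Real.rpow_natCast]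
  · intro j s hs v
    exact a3 v (j v) (s v) (Finset.prod_ne_zero_iff.mp hs v (Finset.mem_univ v))
  · intro j
    exact ⟨fun v => a4 v (j v), fun v b hb hb' => a5 v (j v) b hb hb',
      fun v b z => a6 v (j v) b z⟩
  · intro b p hb hp hpA
    have hR : ∑ j : InfinitePlace K → Fin 4,
        ∫ s, (∏ v, κ v (j v) (s v)) * PhA k μ (fun v => A v (j v)) b (fun v => p v + s v) ∂mK K =
        ∏ v : InfinitePlace K, ∑ i : Fin 4, ∫ s, κ v i s * (A v i (b v) (p v + s) *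
          Gm (k v) (μ v) (1 + b v / (p v + s))) ∂mz (rv v) := by
      rw [Finset.prod_univ_sum, Fintype.piFinset_univ]
      refine Finset.sum_congr rfl fun j _ => ?_
      rw [mK, ← integral_fintype_prod_eq_prod]
      congr 1
      funext s
      rw [PhA, ← Finset.prod_mul_distrib]
    rw [hR]
    by_cases hb8 : ∀ v, ‖b v‖ ≤ 1 / 8
    · rw [Ph0, if_pos hb8]
      refine Finset.prod_congr rfl fun v _ => ?_
      exact a7 v (b v) (p v) (hb v) (hp v) (hb8 v) (hpA v).1 (hpA v).2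
    · rw [Ph0, if_neg hb8]
      push Not at hb8
      obtain ⟨v, hv⟩ := hb8
      symm
      refine Finset.prod_eq_zero (Finset.mem_univ v) ?_
      refine Finset.sum_eq_zero fun i _ => ?_
      have h0 : ∀ s, κ v i s * (A v i (b v) (p v + s) *
          Gm (k v) (μ v) (1 + b v / (p v + s))) = 0 := by
        intro s
        have h3 : A v i (b v) (p v + s) = 0 := by
          by_contra h4
          exact absurd ((a6 v i (b v) (p v + s)).2 h4).1 (not_le.mpr hv)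
        rw [h3, zero_mul, mul_zero]
      simp only [h0, integral_zero]

end Pool.Agent.H54.BH
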