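import Pool.Agent.H29.BH.Targets2

/-!
# Measurability of the sums over the annulus
-/

set_option autoImplicit false

open NumberField NumberField.InfinitePlace NumberField.Units
  NumberField.Units.dirichletUnitTheorem MeasureTheory Set Filter Complex
open scoped nonZeroDivisors ENNReal Topology

namespace Pool.Agent.H54.BH

open Pool.Agent.H25.HK Pool.Agent.H23.LB Pool.Agent.H23.LC Pool.Agent.H29.DW
open Pool.Agent.H28.RC (Rep ft idl)
open Pool.Agent.H29.TC (dvs)
open Pool.Agent.H29.BH

private theorem msble_tsum {ι X : Type} [Countable ι] [MeasurableSpace X] (F : ι → X → ℂ)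
    (hF : ∀ i, Measurable (F i)) (hs : ∀ x, Summable fun i => F i x) :
    Measurable (fun x => ∑' i, F i x) := by
  refine measurable_of_tendsto_metrizable' (atTop : Filter (Finset ι))
    (f := fun s x => ∑ i ∈ s, F i x) (fun s => ?_) ?_
  · exact Finset.measurable_sum s fun i _ => hF i
  · rw [tendsto_pi_nhds]
    intro x
    exact (hs x).hasSum

private theorem countable_K (K : Type) [Field K] [NumberField K] : Countable K := by
  have h1 := Algebraic.countable ℚ K
  have h2 : {x : K | IsAlgebraic ℚ x} = Set.univ :=
    Set.eq_univ_of_forall fun x => Algebra.IsAlgebraic.isAlgebraic x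
  rw [h2] at h1
  exact Set.countable_univ_iff.1 h1

private theorem msble_Gm {X : Type} [MeasurableSpace X] (k : ℤ) {μ w : X → ℂ}
    (hμ : Measurable μ) (hw : Measurable w) : Measurable (fun q => Gm k (μ q) (w q)) := by
  unfold Gm
  refine Measurable.mul ?_ ?_
  · have h1 : Measurable (fun q => w q / ((‖w q‖ : ℝ) : ℂ)) :=
      hw.div (Complex.measurable_ofReal.comp hw.norm)
    exact h1.pow_const k
  · exact Complex.measurable_exp.comp (hμ.mul
      (Complex.measurable_ofReal.comp (Real.measurable_log.comp hw.norm)))

/-- the sums are measurable functions of measurable parameters -/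
private theorem msble_SS (hNB : K_NB) (hPK : A_PK) {X : Type} [MeasurableSpace X] (K : Type)
    [Field K] [NumberField K] {f : Ideal (𝓞 K)} (χ : HG K f) (M : FI K) (hM : M ≠ 0)
    (Y : X → InfinitePlace K → ℝ) (μ : X → InfinitePlace K → ℂ)
    (hY : ∀ v, Measurable (fun q => Y q v)) (hμ : ∀ v, Measurable (fun q => μ q v)) :
    Measurable (fun q => SS χ M (Y q) (μ q)) := by
  have : Countable K := countable_K K
  unfold SS
  refine msble_tsum (fun (x : {x : K // x ∈ M}) (q : X) =>
    cg χ M x * (((PK (sy (Y q) x.1) : ℝ) : ℂ) * GG χ.k (μ q) (sy (Y q) x.1)))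
    (fun x => ?_) (fun q => ?_)
  · have hs : ∀ v, Measurable (fun q => sy (Y q) x.1 v) := fun v => by
      unfold sy
      exact measurable_const.mul (Complex.measurable_ofReal.comp
        (Real.measurable_exp.comp ((hY v).div_const 2)))
    refine measurable_const.mul (Measurable.mul ?_ ?_)
    · refine Complex.measurable_ofReal.comp ?_
      unfold PK
      exact Finset.measurable_prod _ fun v _ => ((hPK.1 _).comp (hs v)).ennreal_toReal
    · unfold GG
      exact Finset.measurable_prod _ fun v _ => msble_Gm _ (hμ v) (hs v)
  · have hn : 0 < Module.finrank ℚ K := Module.finrank_pos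
    obtain ⟨C, -, hC⟩ := hNB (Module.finrank ℚ K) hn
    have hfin := (hC K rfl M (Y q) (fun _ => 17 / 8) hM (fun _ => by norm_num)).1
    have hfin' : {x : {x : K // x ∈ M} | x.1 = 0 ∨ ∀ v, ‖sy (Y q) x.1 v‖ ≤ 17 / 8}.Finite := by
      refine Set.Finite.of_finite_image (f := Subtype.val)
        ((hfin.union (Set.finite_singleton (0 : K))).subset ?_) Subtype.val_injective.injOn
      rintro _ ⟨x, hx, rfl⟩
      by_cases h0 : x.1 = 0
      · exact Or.inr h0
      · rcases hx with hx | hx
        · exact absurd hx h0
        · exact Or.inl ⟨x.2, h0, hx⟩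
    refine summable_of_hasFiniteSupport (hfin'.subset fun x hx => ?_)
    refine Or.inr fun v => ?_
    by_contra hv
    apply hx
    have h1 : PK (sy (Y q) x.1) = 0 := by
      unfold PK
      refine Finset.prod_eq_zero (Finset.mem_univ v) ?_
      have h2 : pk (rv v) (sy (Y q) x.1 v) = 0 := by
        by_contra h3
        exact hv (hPK.2.2.1 _ _ h3).2
      rw [h2, ENNReal.toReal_zero]
    simp only [h1, Complex.ofReal_zero, zero_mul, mul_zero]

/-- measurability of the sums -/
theorem pf_P_MS (hNB : K_NB) (hYC : T_YC) (hPK : A_PK) : P_MS := by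
  intro K _ _ f hf χ M σ t hM
  have hc : Measurable (fun p : ℝ × logSpace K => yc K p.1 p.2) := (hYC K).2.2.2.2.1.measurable
  have hy : Measurable (fun p : ℝ × logSpace K => yM K M p.1 p.2) := by
    unfold yM
    exact hc.comp ((measurable_fst.sub_const _).prodMk measurable_snd)
  constructor
  · refine msble_SS hNB hPK K χ M hM (fun q : ℝ × ℝ × logSpace K => yM K M q.2.1 q.2.2)
      (fun q => mp χ.ν σ (t + q.1)) (fun v => ?_) (fun v => ?_)
    · exact (measurable_pi_apply v).comp (hy.comp measurable_snd)
    · unfold mp
      refine measurable_const.mul (measurable_const.sub (measurable_const.add ?_))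
      refine Measurable.mul_const ?_ _
      exact Complex.measurable_ofReal.comp (measurable_const.add measurable_fst)
  · intro μ
    exact msble_SS hNB hPK K χ M hM (fun q : ℝ × logSpace K => yM K M q.1 q.2) (fun _ => μ)
      (fun v => (measurable_pi_apply v).comp hy) (fun v => measurable_const)

end Pool.Agent.H54.BH
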